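import Pool.Agent.Helper58.QD.StF

/-!
# Project QD, module PLB: Poincare lemma with sup bound
-/

set_option autoImplicit false

namespace Helper5.QD

open Helper62.LH Helper62.DSH Helper58.QD MeasureTheory Set Filter Topology
open scoped ContDiff ENNReal

theorem dY_neg {n : ℕ} (s : ℝ) (x : E n) :
    dY (fun y : E n => -y) s x = (1 - s) • ContinuousLinearMap.id ℝ (E n) := by
  have h : fderiv ℝ (fun y : E n => -y) x = -ContinuousLinearMap.id ℝ (E n) := by
    have := fderiv_fun_neg (𝕜 := ℝ) (f := fun y : E n => y) (x := x)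
    rw [this]
    simp
  unfold dY
  rw [h]
  refine ContinuousLinearMap.ext fun v => ?_
  change v + s • (-v) = (1 - s) • v
  rw [sub_smul, one_smul, smul_neg, sub_eq_add_neg]

theorem pb_zero {n k : ℕ} (α : Fk n (k + 1)) : pb (0 : E n →L[ℝ] E n) α = 0 := by
  ext v
  unfold pb
  rw [ContinuousAlternatingMap.compContinuousLinearMap_apply]
  exact α.map_coord_zero 0 (by simp)

theorem pb_smul_norm {n k : ℕ} (c : ℝ) (hc0 : 0 ≤ c) (hc1 : c ≤ 1) (α : Fk n k) :
    ‖pb (c • ContinuousLinearMap.id ℝ (E n)) α‖ ≤ ‖α‖ := by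
  unfold pb
  refine (ContinuousAlternatingMap.norm_compContinuousLinearMap_le _ _).trans ?_
  have h1 : ‖c • ContinuousLinearMap.id ℝ (E n)‖ ≤ 1 := by
    refine ContinuousLinearMap.opNorm_le_bound _ zero_le_one fun v => ?_
    change ‖c • v‖ ≤ 1 * ‖v‖
    rw [norm_smul, Real.norm_of_nonneg hc0]
    exact mul_le_mul_of_nonneg_right hc1 (norm_nonneg _)
  have h4 : ‖c • ContinuousLinearMap.id ℝ (E n)‖ ^ Fintype.card (Fin k) ≤ 1 :=
    pow_le_one₀ (norm_nonneg _) h1
  calc ‖α‖ * ‖c • ContinuousLinearMap.id ℝ (E n)‖ ^ Fintype.card (Fin k)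
      ≤ ‖α‖ * 1 := mul_le_mul_of_nonneg_left h4 (norm_nonneg _)
    _ = ‖α‖ := mul_one _

/-- PLB: the Poincare lemma with sup bound. -/
theorem hPlb (H : SHmt) : SPlb := by
  intro n j μ hμ hcl
  obtain ⟨h1, -⟩ := H n j (fun x => -x) contDiff_neg
  obtain ⟨hs, hd, hc⟩ := h1 μ hμ
  refine ⟨fun x => -(hmt μ (fun y => -y) x), hs.neg, ?_, ?_⟩
  · intro x
    have e1 : extDeriv (fun x => -(hmt μ (fun y => -y) x)) x =
        -extDeriv (hmt μ (fun y => -y)) x := by
      have h := extDeriv_fun_smul (𝕜 := ℝ) (x := x) (-1 : ℝ) (hmt μ (fun y => -y))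
      have h2 : (-1 : ℝ) • extDeriv (hmt μ fun y : E n => -y) x =
          -extDeriv (hmt μ fun y : E n => -y) x := neg_one_smul ℝ _
      rw [← h2, ← h]
      congr 1
      funext y
      exact (neg_one_smul ℝ _).symm
    have e2 : dY (fun y : E n => -y) 1 x = 0 := by
      rw [dY_neg]
      refine ContinuousLinearMap.ext fun v => ?_
      change (1 - 1 : ℝ) • v = 0
      rw [sub_self, zero_smul]
    rw [e1, hd hcl x, e2, pb_zero, zero_sub, neg_neg]
  · intro r B hB x hx
    rw [norm_neg]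
    unfold hmt
    have hb : ∀ s ∈ Set.uIoc (0 : ℝ) 1,
        ‖pb (dY (fun y : E n => -y) s x) ((μ (x + s • -x)).curryLeft (-x))‖ ≤ r * B := by
      intro s hs'
      rw [Set.uIoc_of_le zero_le_one] at hs'
      have hs0 : 0 ≤ 1 - s := by linarith [hs'.2]
      have hs1 : 1 - s ≤ 1 := by linarith [hs'.1]
      rw [dY_neg]
      refine (pb_smul_norm _ hs0 hs1 _).trans ?_
      have hx' : ‖x + s • -x‖ ≤ r := by
        have : x + s • -x = (1 - s) • x := by
          rw [smul_neg, sub_smul, one_smul, sub_eq_add_neg]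
        rw [this]
        refine (norm_smul_le _ _).trans ?_
        rw [Real.norm_of_nonneg hs0]
        nlinarith [norm_nonneg x]
      have h2 := hB _ hx'
      have h3 : ‖(μ (x + s • -x)).curryLeft (-x)‖ ≤ ‖μ (x + s • -x)‖ * ‖x‖ := by
        have := (μ (x + s • -x)).curryLeft.le_opNorm (-x)
        rwa [ContinuousAlternatingMap.norm_curryLeft, norm_neg] at this
      have hr : 0 ≤ r := (norm_nonneg x).trans hx
      calc ‖(μ (x + s • -x)).curryLeft (-x)‖ ≤ ‖μ (x + s • -x)‖ * ‖x‖ := h3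
        _ ≤ B * r := mul_le_mul h2 hx (norm_nonneg _) ((norm_nonneg _).trans h2)
        _ = r * B := mul_comm _ _
    have := intervalIntegral.norm_integral_le_of_norm_le_const hb
    simpa using this

end Helper5.QD
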